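import Mathlib
import Pool.Agent.Q160.TB6
import Pool.Agent.H447R2.ML.Spec

set_option autoImplicit false

/-!
# Pairs near the solutions of `p ^ 2 - 2 r ^ 2 = -1`

`a n + b n √2 = (1 + √2) ^ n`; the solutions of `p ^ 2 - 2 r ^ 2 = -1` in positive integers are the
pairs `(a n, b n)`, `n` odd.  For `0 < s < 1` and `0 ≤ θ < 1` let
`N x s θ q = x q + ⌊θ 2 ^ ⌊s lam q⌋⌋`, `lam = log (1 + √2) / log 2`, an integer of the interval
`[x q, x q + (1 + √2) ^ (s q))`, for `x = a` and `x = b`.  For `θ = 0` it is `x q`, which for odd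
`q > 1` is prime if and only if `q` is prime and the `q`-rough part of `x q` is prime.  For
almost every `θ` the number of primes `q ≤ n` for which the `q`-rough part of `N x s θ q` is prime has
the order of magnitude `log n`, and for almost every pair `(θ, θ')` there are only finitely many primes
`q` such that the `q`-rough parts of `N a s θ q` and of `N b s' θ' q` are both prime.
-/

namespace Pool.Agent.Q166.NP

open Filter Topology MeasureTheory

/-- `(pell n).1 + (pell n).2 * √2 = (1 + √2) ^ n`. -/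
def pell : ℕ → ℕ × ℕ
  | 0 => (1, 0)
  | (n + 1) => ((pell n).1 + 2 * (pell n).2, (pell n).1 + (pell n).2)

/-- The coefficient of `1` in `(1 + √2) ^ n`. -/
def a (n : ℕ) : ℕ := (pell n).1

/-- The coefficient of `√2` in `(1 + √2) ^ n`. -/
def b (n : ℕ) : ℕ := (pell n).2

/-- The product, with multiplicity, of the prime factors of `m` that are larger than `q`. -/
def roughPart (q m : ℕ) : ℕ := (m.primeFactorsList.filter (fun r => q < r)).prod

/-- `log (1 + √2) / log 2`. -/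
noncomputable def lam : ℝ := Real.log (1 + √2) / Real.log 2

/-- An integer of the interval `[x q, x q + (1 + √2) ^ (s q))`. -/
noncomputable def N (x : ℕ → ℕ) (s θ : ℝ) (q : ℕ) : ℕ := x q + ⌊θ * (2 : ℝ) ^ ⌊s * (lam * q)⌋₊⌋₊

open Classical in
/-- The number of primes `q ≤ n` in `S` for which the `q`-rough part of `N x s θ q` is prime. -/
noncomputable def M (S : Set ℕ) (x : ℕ → ℕ) (s θ : ℝ) (n : ℕ) : ℕ :=
  ((Finset.range (n + 1)).filter (fun q => q.Prime ∧ q ∈ S ∧ (roughPart q (N x s θ q)).Prime)).card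

open Classical in
/-- The sum of `log q / q` over the primes `q ≤ n` in `S`. -/
noncomputable def V (S : Set ℕ) (n : ℕ) : ℝ :=
  ∑ q ∈ (Finset.range (n + 1)).filter (fun q => q.Prime ∧ q ∈ S), Real.log q / q

lemma a_zero : a 0 = 1 := rfl

lemma b_zero : b 0 = 0 := rfl

lemma a_succ (n : ℕ) : a (n + 1) = a n + 2 * b n := rfl

lemma b_succ (n : ℕ) : b (n + 1) = a n + b n := rfl

lemma a_add (m : ℕ) : ∀ n : ℕ, a (m + n) = a m * a n + 2 * (b m * b n) ∧
    b (m + n) = a m * b n + b m * a n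
  | 0 => by rw [a_zero, b_zero, add_zero]; constructor <;> ring
  | (n + 1) => by
      obtain ⟨h1, h2⟩ := a_add m n
      rw [← add_assoc, a_succ, b_succ (m + n), h1, h2, a_succ n, b_succ n]
      constructor <;> ring

lemma norm_eq : ∀ n : ℕ, (a n : ℤ) ^ 2 - 2 * (b n : ℤ) ^ 2 = (-1) ^ n
  | 0 => by rw [a_zero, b_zero]; norm_num
  | (n + 1) => by
      have h := norm_eq n
      rw [pow_succ (-1 : ℤ), ← h, a_succ, b_succ]
      push_cast
      ring

lemma a_pos (n : ℕ) : 0 < a n := by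
  induction n with
  | zero => exact one_pos
  | succ n ih => rw [a_succ]; omega

lemma b_pos {n : ℕ} (h : n ≠ 0) : 0 < b n := by
  obtain ⟨k, rfl⟩ := Nat.exists_eq_succ_of_ne_zero h
  rw [Nat.succ_eq_add_one, b_succ]
  have := a_pos k
  omega

lemma a_mono_lt {m n : ℕ} (hm : 1 ≤ m) (h : m < n) : a m < a n := by
  induction n with
  | zero => omega
  | succ n ih =>
    rw [a_succ]
    have hb : 0 < b n := b_pos (by omega)
    rcases Nat.lt_or_ge m n with h1 | h1
    · have := ih h1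
      omega
    · have : m = n := by omega
      subst this
      omega

lemma b_mono_lt {m n : ℕ} (h : m < n) : b m < b n := by
  induction n with
  | zero => omega
  | succ n ih =>
    rw [b_succ]
    have ha : 0 < a n := a_pos n
    rcases Nat.lt_or_ge m n with h1 | h1
    · have := ih h1
      omega
    · have : m = n := by omega
      subst this
      omega

/-- `a d` divides `a (d (2 j + 1))` for odd `d`, and `b d` divides `b (d j)`. -/
lemma b_dvd (d : ℕ) : ∀ j : ℕ, b d ∣ b (d * j)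
  | 0 => by rw [mul_zero, b_zero]; exact dvd_zero _
  | (j + 1) => by
      rw [mul_add, mul_one, (a_add (d * j) d).2]
      exact dvd_add (dvd_mul_left _ _) ((b_dvd d j).mul_right _)

lemma two_step {d : ℕ} (hd : Odd d) (m : ℕ) : a (m + d + d) = 2 * a d * a (m + d) + a m := by
  have h1 := (a_add (m + d) d).1
  have h2 := (a_add m d).1
  have h3 := (a_add m d).2
  have h4 := norm_eq d
  rw [hd.neg_one_pow] at h4
  zify at h1 h2 h3 ⊢
  rw [h1, h2, h3]
  linear_combination -(a m : ℤ) * h4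

lemma a_dvd {d : ℕ} (hd : Odd d) : ∀ j : ℕ, a d ∣ a (d * (2 * j + 1))
  | 0 => by rw [mul_zero, zero_add, mul_one]
  | (j + 1) => by
      have h := two_step hd (d * (2 * j + 1))
      rw [show d * (2 * (j + 1) + 1) = d * (2 * j + 1) + d + d by ring, h]
      exact dvd_add (Dvd.dvd.mul_right (dvd_mul_left _ _) _) (a_dvd hd j)

/-- The parametrisation. -/
lemma solutions : ∀ r p : ℕ, 0 < p → 0 < r → p ^ 2 + 1 = 2 * r ^ 2 →
    ∃ k : ℕ, p = a (2 * k + 1) ∧ r = b (2 * k + 1) := by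
  intro r
  induction r using Nat.strong_induction_on with
  | _ r ih =>
    intro p hp hr h
    rcases Nat.lt_or_ge r 2 with h2 | h2
    · have hr1 : r = 1 := by omega
      subst hr1
      have hp1 : p = 1 := by nlinarith
      exact ⟨0, by rw [hp1]; rfl, rfl⟩
    · -- descend by `(3 - 2 √2)`
      have e1 : r < p := by nlinarith
      have e2 : p < 2 * r := by nlinarith
      have e3 : 4 * r < 3 * p := by nlinarith
      have e4 : 2 * p < 3 * r := by nlinarith
      obtain ⟨p', hp'⟩ : ∃ p', p' + 4 * r = 3 * p := ⟨3 * p - 4 * r, by omega⟩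
      obtain ⟨r', hr'⟩ : ∃ r', r' + 2 * p = 3 * r := ⟨3 * r - 2 * p, by omega⟩
      have hp0 : 0 < p' := by omega
      have hr0 : 0 < r' := by omega
      have hlt : r' < r := by omega
      have heq : p' ^ 2 + 1 = 2 * r' ^ 2 := by
        zify at h hp' hr' ⊢
        have q1 : (p' : ℤ) = 3 * p - 4 * r := by linarith
        have q2 : (r' : ℤ) = 3 * r - 2 * p := by linarith
        rw [q1, q2]
        linear_combination h
      obtain ⟨k, hk1, hk2⟩ := ih r' hlt p' hp0 hr0 heq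
      refine ⟨k + 1, ?_, ?_⟩
      · have h5 := (a_add (2 * k + 1) 2).1
        rw [show 2 * (k + 1) + 1 = 2 * k + 1 + 2 by ring, h5, ← hk1, ← hk2]
        show p = p' * 3 + 2 * (r' * 2)
        omega
      · have h5 := (a_add (2 * k + 1) 2).2
        rw [show 2 * (k + 1) + 1 = 2 * k + 1 + 2 by ring, h5, ← hk1, ← hk2]
        show r = p' * 2 + r' * 3
        omega

lemma odd_a (n : ℕ) : a n % 2 = 1 := by
  induction n with
  | zero => rfl
  | succ n ih => rw [a_succ]; omega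

lemma U_eq : ∀ n : ℕ, Pool.Agent.H447R2.ML.U 2 n = b n ∧
    Pool.Agent.H447R2.ML.U 2 (n + 1) = a n + b n
  | 0 => by rw [a_zero, b_zero]; exact ⟨rfl, rfl⟩
  | (n + 1) => by
      obtain ⟨h1, h2⟩ := U_eq n
      refine ⟨by rw [h2, b_succ], ?_⟩
      rw [Pool.Agent.H447R2.ML.U_add_two, h1, h2, a_succ, b_succ]
      ring

lemma V_eq2 : ∀ n : ℕ, Pool.Agent.H447R2.ML.V 2 n = 2 * a n
  | 0 => rfl
  | (n + 1) => by
      rw [Pool.Agent.H447R2.ML.V_eq, Pool.Agent.H447R2.ML.U_add_two, (U_eq n).1, (U_eq n).2, a_succ]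
      ring

lemma rough_self {q m : ℕ} (hm : m ≠ 0) (h : ∀ l : ℕ, l.Prime → l ∣ m → q < l) :
    roughPart q m = m :=
  Pool.Agent.H447R2.ML.roughPart_eq_self hm h

lemma rough_a {q : ℕ} (hq : q.Prime) (h2 : 2 < q) : roughPart q (a q) = a q := by
  refine rough_self (a_pos q).ne' fun l hl hd => ?_
  have hl2 : l ≠ 2 := by
    rintro rfl
    have := odd_a q
    omega
  rcases Nat.lt_or_ge q 5 with h5 | h5
  · have hq3 : q = 3 := by
      have : q ≠ 4 := by rintro rfl; exact absurd hq (by norm_num)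
      omega
    subst hq3
    have h7 : a 3 = 7 := rfl
    rw [h7] at hd
    have := (Nat.prime_dvd_prime_iff_eq hl (by norm_num)).1 hd
    omega
  · refine Pool.Agent.H447R2.ML.lt_of_dvd_V 2 hq h5 (fun h => ?_) hl (fun h => ?_) ?_
    · have := Nat.le_of_dvd two_pos h
      omega
    · exact hl2 ((Nat.prime_dvd_prime_iff_eq hl Nat.prime_two).1 h)
    · rw [V_eq2]
      exact hd.mul_left _

lemma rough_b {q : ℕ} (hq : q.Prime) (h2 : 2 < q) : roughPart q (b q) = b q := by
  refine rough_self (b_pos (by omega)).ne' fun l hl hd => ?_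
  rcases Nat.lt_or_ge q 5 with h5 | h5
  · have hq3 : q = 3 := by
      have : q ≠ 4 := by rintro rfl; exact absurd hq (by norm_num)
      omega
    subst hq3
    have h7 : b 3 = 5 := rfl
    rw [h7] at hd
    have := (Nat.prime_dvd_prime_iff_eq hl (by norm_num)).1 hd
    omega
  · refine Pool.Agent.H447R2.ML.lt_of_dvd_U 2 hq h5 (fun h => ?_) hl ?_
    · have h8 : q ∣ 2 ^ 3 := by norm_num at h ⊢; exact h
      have := hq.dvd_of_dvd_pow h8
      have := Nat.le_of_dvd two_pos this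
      omega
    · rw [(U_eq q).1]
      exact hd

/-- The index of a prime is prime. -/
lemma prime_a {n : ℕ} (h2 : 2 ≤ n) (hodd : Odd n) (h : (a n).Prime) : n.Prime := by
  by_contra hn
  obtain ⟨d, hd, hd1, hdn⟩ := Nat.exists_dvd_of_not_prime2 h2 hn
  obtain ⟨m, rfl⟩ := hd
  have hdo : Odd d := Nat.Odd.of_mul_left hodd
  have hmo : Odd m := Nat.Odd.of_mul_right hodd
  obtain ⟨j, rfl⟩ := hmo
  have h3 := a_dvd hdo j
  rcases (Nat.dvd_prime h).1 h3 with h4 | h4
  · have := a_mono_lt (m := 1) (n := d) le_rfl (by omega)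
    have h5 : a 1 = 1 := rfl
    omega
  · have := a_mono_lt (m := d) (by omega) hdn
    omega

lemma prime_b {n : ℕ} (h2 : 2 ≤ n) (hodd : Odd n) (h : (b n).Prime) : n.Prime := by
  by_contra hn
  obtain ⟨d, hd, hd1, hdn⟩ := Nat.exists_dvd_of_not_prime2 h2 hn
  obtain ⟨m, rfl⟩ := hd
  have h3 := b_dvd d m
  rcases (Nat.dvd_prime h).1 h3 with h4 | h4
  · have := b_mono_lt (m := 1) (n := d) (by omega)
    have h5 : b 1 = 1 := rfl
    omega
  · have := b_mono_lt hdn
    omega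

lemma V_eq (S : Set ℕ) (n : ℕ) : V S n = Pool.Agent.TH888.R.VS S n := by
  classical
  unfold V Pool.Agent.TH888.R.VS
  rw [Finset.sum_filter]
  refine Finset.sum_congr rfl fun p _ => ?_
  by_cases h : p.Prime ∧ p ∈ S
  · rw [if_pos h, if_pos ⟨h.2, h.1⟩]
    rfl
  · rw [if_neg h, if_neg fun h1 => h ⟨h1.2, h1.1⟩]

lemma M_eq (S : Set ℕ) (x : ℕ → ℕ) (s θ : ℝ) (n : ℕ) :
    M S x s θ n = Pool.Agent.TH888.R.cS S (N x s θ) n := by
  classical
  unfold M Pool.Agent.TH888.R.cS
  rfl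

lemma one_lt_eps : (1 : ℝ) < 1 + √2 := by
  have : 0 < √(2 : ℝ) := by positivity
  linarith

lemma lam_pos : 0 < lam :=
  div_pos (Real.log_pos one_lt_eps) (Real.log_pos one_lt_two)

lemma sq2 : √(2 : ℝ) ^ 2 = 2 := Real.sq_sqrt (by norm_num)

/-- `(1 + √2) ^ n = a n + b n √2`. -/
lemma closed (n : ℕ) : (1 + √(2 : ℝ)) ^ n = a n + b n * √2 := by
  induction n with
  | zero => rw [a_zero, b_zero]; simp
  | succ n ih =>
    rw [pow_succ, ih, a_succ, b_succ]
    push_cast
    linear_combination (b n : ℝ) * sq2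

lemma a_le_b (n : ℕ) : a n ≤ 2 * b n + 1 := by
  induction n with
  | zero => rw [a_zero]; omega
  | succ n ih => rw [a_succ, b_succ]; omega

lemma b_le_a (n : ℕ) : b n ≤ a n := by
  induction n with
  | zero => rw [b_zero]; omega
  | succ n ih => rw [a_succ, b_succ]; omega

/-- `(1 + √2) ^ n ≤ b (n + 2)` -/
lemma b_low (n : ℕ) : (1 + √(2 : ℝ)) ^ n ≤ b (n + 2) := by
  rw [closed]
  have h1 : √(2 : ℝ) ≤ 2 := by
    rw [Real.sqrt_le_left (by norm_num)]; norm_num
  have h2 : b (n + 2) = 2 * a n + 3 * b n := by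
    rw [show n + 2 = n + 1 + 1 by ring, b_succ, a_succ, b_succ]; ring
  rw [h2]
  push_cast
  have h3 : (0 : ℝ) ≤ a n := Nat.cast_nonneg _
  have h4 : (0 : ℝ) ≤ b n := Nat.cast_nonneg _
  nlinarith

lemma a_up (n : ℕ) : (a n : ℝ) ≤ (1 + √(2 : ℝ)) ^ n := by
  rw [closed]
  have h1 : 0 ≤ √(2 : ℝ) := Real.sqrt_nonneg _
  have h4 : (0 : ℝ) ≤ b n := Nat.cast_nonneg _
  nlinarith

/-- A counting function `O(log n)` forces the sum of `log q / q` to converge. -/
lemma not_tendsto {s : ℕ → ℕ} {K : ℝ}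
    (h : ∀ᶠ n : ℕ in atTop, (Pool.Agent.TH888.R.cS Set.univ s n : ℝ) ≤ K * Real.log n) :
    ¬ Tendsto (Pool.Agent.TH888.R.VS {q | (Pool.Agent.H305R2.roughPart q (s q)).Prime}) atTop atTop := by
  classical
  obtain ⟨n0, hn0⟩ := eventually_atTop.1 h
  set T : Set ℕ := {q | (Pool.Agent.H305R2.roughPart q (s q)).Prime} with hT
  obtain ⟨A, hA⟩ : ∃ A : ℝ, A = |K| + n0 + 1 := ⟨_, rfl⟩
  have hA0 : 0 ≤ A := by rw [hA]; positivity
  have hlog2 : Real.log 2 ≤ 1 := by
    have := Real.log_two_lt_d9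
    linarith
  have hlog20 : 0 < Real.log 2 := Real.log_pos one_lt_two
  have hcnt : ∀ J : ℕ, (Pool.Agent.TH888.R.cS Set.univ s (2 ^ (J + 1)) : ℝ) ≤ A * (J + 3) := by
    intro J
    rcases Nat.lt_or_ge (2 ^ (J + 1)) n0 with h1 | h1
    · have h2 : Pool.Agent.TH888.R.cS Set.univ s (2 ^ (J + 1)) ≤ 2 ^ (J + 1) + 1 := by
        unfold Pool.Agent.TH888.R.cS
        refine le_trans (Finset.card_le_card (t := Finset.range (2 ^ (J + 1) + 1)) fun q hq => ?_) ?_
        · simp only [Finset.mem_filter] at hq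
          exact hq.1
        · rw [Finset.card_range]
      have h3 : (Pool.Agent.TH888.R.cS Set.univ s (2 ^ (J + 1)) : ℝ) ≤ n0 := by
        exact_mod_cast h2.trans (by omega)
      have h4 : (n0 : ℝ) ≤ A := by
        rw [hA]
        linarith [abs_nonneg K]
      have h5 : (0 : ℝ) ≤ J := Nat.cast_nonneg J
      nlinarith
    · have h2 := hn0 _ h1
      have h3 : Real.log ((2 ^ (J + 1) : ℕ) : ℝ) = (J + 1) * Real.log 2 := by
        push_cast
        rw [Real.log_pow]
        push_cast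
        ring
      rw [h3] at h2
      refine h2.trans ?_
      have h5 : (0 : ℝ) ≤ J := Nat.cast_nonneg J
      have h6 : K ≤ A := by
        rw [hA]
        have := le_abs_self K
        have h7 : (0 : ℝ) ≤ n0 := Nat.cast_nonneg _
        linarith
      calc K * ((J + 1) * Real.log 2) ≤ A * ((J + 1) * Real.log 2) :=
            mul_le_mul_of_nonneg_right h6 (by positivity)
        _ ≤ A * (J + 3) := by
            refine mul_le_mul_of_nonneg_left ?_ hA0
            nlinarith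
  have hF : ∀ J : ℕ, (∑ q ∈ Finset.range (2 ^ J), if q ∈ T ∧ q.Prime then Pool.Agent.TH888.R.wt q else 0) ≤
      A * (20 - (2 * J ^ 2 + 12 * J + 20) / 2 ^ J) := by
    intro J
    induction J with
    | zero =>
      have h0 : ¬ ((0 : ℕ) ∈ T ∧ Nat.Prime 0) := fun h => Nat.not_prime_zero h.2
      simp [h0]
    | succ J ih =>
      have hsplit : Finset.range (2 ^ (J + 1)) = Finset.range (2 ^ J) ∪ Finset.Ico (2 ^ J) (2 ^ (J + 1)) := by
        rw [Finset.range_eq_Ico, Finset.range_eq_Ico, Finset.Ico_union_Ico_eq_Ico (Nat.zero_le _)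
          (Nat.pow_le_pow_right (by norm_num) (Nat.le_succ J))]
      have hdisj : Disjoint (Finset.range (2 ^ J)) (Finset.Ico (2 ^ J) (2 ^ (J + 1))) := by
        rw [Finset.range_eq_Ico]
        exact Finset.Ico_disjoint_Ico_consecutive 0 (2 ^ J) (2 ^ (J + 1))
      rw [hsplit, Finset.sum_union hdisj]
      have h2 : (∑ q ∈ Finset.Ico (2 ^ J) (2 ^ (J + 1)), if q ∈ T ∧ q.Prime then Pool.Agent.TH888.R.wt q else 0) ≤
          A * (J + 3) * ((J + 1) / 2 ^ J) := by
        rw [← Finset.sum_filter]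
        have h3 : ∀ q ∈ (Finset.Ico (2 ^ J) (2 ^ (J + 1))).filter (fun q => q ∈ T ∧ q.Prime),
            Pool.Agent.TH888.R.wt q ≤ (J + 1) / 2 ^ J := by
          intro q hq
          rw [Finset.mem_filter, Finset.mem_Ico] at hq
          obtain ⟨⟨h4, h5⟩, _, _⟩ := hq
          unfold Pool.Agent.TH888.R.wt
          have hq0 : (0 : ℝ) < q := by
            have : 0 < 2 ^ J := by positivity
            exact_mod_cast lt_of_lt_of_le this h4
          have h6 : Real.log q ≤ (J + 1) := by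
            have h7 : Real.log q ≤ Real.log ((2 : ℝ) ^ (J + 1)) := by
              refine Real.log_le_log hq0 ?_
              exact_mod_cast h5.le
            rw [Real.log_pow] at h7
            push_cast at h7
            have h8 : (0 : ℝ) ≤ J := Nat.cast_nonneg J
            nlinarith
          have h7 : (2 : ℝ) ^ J ≤ q := by exact_mod_cast h4
          gcongr
        refine (Finset.sum_le_card_nsmul _ _ _ h3).trans ?_
        rw [nsmul_eq_mul]
        refine mul_le_mul_of_nonneg_right ?_ (by positivity)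
        refine le_trans ?_ (hcnt J)
        unfold Pool.Agent.TH888.R.cS
        refine Nat.cast_le.2 (Finset.card_le_card fun q hq => ?_)
        simp only [Finset.mem_filter, Finset.mem_Ico, Finset.mem_range] at hq ⊢
        exact ⟨by omega, hq.2.2, Set.mem_univ _, hq.2.1⟩
      refine (add_le_add ih h2).trans (le_of_eq ?_)
      have h9 : (2 : ℝ) ^ J ≠ 0 := by positivity
      rw [pow_succ]
      push_cast
      field_simp
      ring
  intro ht
  obtain ⟨n, hn⟩ := (ht.eventually_gt_atTop (A * 20)).exists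
  have h0 : Pool.Agent.TH888.R.VS T n =
      ∑ q ∈ Finset.range (n + 1), if q ∈ T ∧ q.Prime then Pool.Agent.TH888.R.wt q else 0 := by
    unfold Pool.Agent.TH888.R.VS
    refine Finset.sum_congr rfl fun q _ => ?_
    by_cases h5 : q ∈ T ∧ q.Prime
    · rw [if_pos h5, if_pos h5]
    · rw [if_neg h5, if_neg h5]
  have h1 : Pool.Agent.TH888.R.VS T n ≤
      ∑ q ∈ Finset.range (2 ^ (n + 1)), if q ∈ T ∧ q.Prime then Pool.Agent.TH888.R.wt q else 0 := by
    rw [h0]
    refine Finset.sum_le_sum_of_subset_of_nonneg ?_ fun q _ _ => ?_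
    · intro q hq
      rw [Finset.mem_range] at hq ⊢
      exact lt_of_lt_of_le hq (Nat.lt_two_pow_self (n := n + 1)).le
    · split_ifs
      · exact Pool.Agent.TH888.R.wt_nonneg q
      · exact le_rfl
  have h2 := hF (n + 1)
  have h3 : (0 : ℝ) ≤ (2 * ((n + 1 : ℕ) : ℝ) ^ 2 + 12 * ((n + 1 : ℕ) : ℝ) + 20) / 2 ^ (n + 1) := by positivity
  have h4 : A * (20 - (2 * ((n + 1 : ℕ) : ℝ) ^ 2 + 12 * ((n + 1 : ℕ) : ℝ) + 20) / 2 ^ (n + 1)) ≤ A * 20 :=
    mul_le_mul_of_nonneg_left (by linarith) hA0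
  linarith

lemma hexp (p : ℝ) : Real.exp (Real.log ((2 : ℕ) : ℝ) * (lam * p)) =
    Real.exp (Real.log (1 + √2) * p) := by
  congr 1
  have hl2 : 0 < Real.log 2 := Real.log_pos one_lt_two
  unfold lam
  push_cast
  field_simp

/-- The law for the two sequences. -/
theorem law : ∃ δ : ℝ, 0 < δ ∧ δ < 1 ∧ ∃ c1 c2 : ℝ, 0 < c1 ∧ 0 < c2 ∧ ∀ x : ℕ → ℕ, (x = a ∨ x = b) →
    ∀ s : ℝ, 1 - δ ≤ s → s < 1 → ∀ S : Set ℕ, ∀ᵐ θ : ℝ, θ ∈ Set.Ico (0 : ℝ) 1 →
      Pool.Agent.Q160.TB.PtO (N x s θ) c1 c2 S := by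
  classical
  obtain ⟨δ, hδ, hδ1, h⟩ := Pool.Agent.Q160.TB.plus_law
  obtain ⟨c1, c2, hc1, hc2, hpt⟩ := h 2 le_rfl lam lam_pos
  refine ⟨δ, hδ, hδ1, c1, c2, hc1, hc2, fun x hx s hs hs1 S => ?_⟩
  have he1 : (1 : ℝ) < 1 + √2 := one_lt_eps
  have he0 : (0 : ℝ) < 1 + √2 := by linarith
  have hl2 : 0 < Real.log 2 := Real.log_pos one_lt_two
  have hlow : ∀ n, b n ≤ x n := by
    rcases hx with rfl | rfl
    · exact b_le_a
    · exact fun n => le_rfl
  have hup : ∀ n, (x n : ℝ) ≤ (1 + √2) ^ n := by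
    rcases hx with rfl | rfl
    · exact a_up
    · intro n
      refine le_trans ?_ (a_up n)
      exact_mod_cast b_le_a n
  have h3 := hpt s hs hs1 x 1 (by
    have hev : ∀ᶠ p : ℕ in atTop, 2 / (1 - s) ≤ (p : ℝ) :=
      tendsto_natCast_atTop_atTop.eventually_ge_atTop _
    filter_upwards [hev, eventually_ge_atTop 2] with p hp hp2
    rw [div_le_iff₀ (by linarith)] at hp
    have hsl : 0 ≤ s * (lam * p) :=
      mul_nonneg (by linarith) (mul_nonneg lam_pos.le (Nat.cast_nonneg p))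
    have h4 : ((2 ^ ⌊s * (lam * (p : ℝ))⌋₊ : ℕ) : ℝ) ≤ (x p : ℝ) := by
      calc ((2 ^ ⌊s * (lam * (p : ℝ))⌋₊ : ℕ) : ℝ)
          = Real.exp (Real.log 2 * (⌊s * (lam * (p : ℝ))⌋₊ : ℕ)) := by
            rw [mul_comm (Real.log 2), Real.exp_nat_mul, Real.exp_log two_pos]
            push_cast
            ring
        _ ≤ Real.exp (Real.log 2 * (s * (lam * p))) := by
            refine Real.exp_le_exp.2 (mul_le_mul_of_nonneg_left (Nat.floor_le hsl) hl2.le)
        _ = Real.exp (Real.log (1 + √2) * (s * p)) := by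
            congr 1
            unfold lam
            field_simp
        _ ≤ Real.exp (Real.log (1 + √2) * ((p - 2 : ℕ) : ℝ)) := by
            refine Real.exp_le_exp.2 (mul_le_mul_of_nonneg_left ?_ (Real.log_pos he1).le)
            rw [Nat.cast_sub hp2]
            push_cast
            linarith
        _ = (1 + √2) ^ (p - 2) := by
            rw [mul_comm (Real.log (1 + √2)), Real.exp_nat_mul, Real.exp_log he0]
        _ ≤ b (p - 2 + 2) := b_low (p - 2)
        _ = b p := by rw [Nat.sub_add_cancel hp2]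
        _ ≤ x p := by exact_mod_cast hlow p
    exact_mod_cast h4) (by
    refine Eventually.of_forall fun p => ?_
    rw [hexp, mul_comm (Real.log (1 + √2)), Real.exp_nat_mul, Real.exp_log he0, one_mul]
    exact hup p) S
  simp only [Nat.cast_ofNat] at h3
  exact h3

lemma meas_N (x : ℕ → ℕ) (s : ℝ) (q : ℕ) : Measurable fun θ : ℝ => N x s θ q := by
  unfold N
  exact (measurable_from_nat (f := fun k : ℕ => x q + k)).comp
    (Nat.measurable_floor.comp (measurable_id.mul_const _))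

lemma meas_fin (s s' : ℝ) : MeasurableSet {z : ℝ × ℝ | z.1 ∈ Set.Ico (0 : ℝ) 1 → z.2 ∈ Set.Ico (0 : ℝ) 1 →
    {q : ℕ | q.Prime ∧ (roughPart q (N a s z.1 q)).Prime ∧
      (roughPart q (N b s' z.2 q)).Prime}.Finite} := by
  have hE : ∀ q : ℕ, MeasurableSet {z : ℝ × ℝ | q.Prime ∧ (roughPart q (N a s z.1 q)).Prime ∧
      (roughPart q (N b s' z.2 q)).Prime} := by
    intro q
    have h1 : Measurable fun z : ℝ × ℝ => (N a s z.1 q, N b s' z.2 q) :=
      ((meas_N a s q).comp measurable_fst).prodMk ((meas_N b s' q).comp measurable_snd)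
    exact h1 (MeasurableSet.of_discrete (s := {w : ℕ × ℕ | q.Prime ∧ (roughPart q w.1).Prime ∧
      (roughPart q w.2).Prime}))
  have hfin : ∀ z : ℝ × ℝ, {q : ℕ | q.Prime ∧ (roughPart q (N a s z.1 q)).Prime ∧
      (roughPart q (N b s' z.2 q)).Prime}.Finite ↔ ∃ B : ℕ, ∀ q : ℕ, B ≤ q →
      ¬ (q.Prime ∧ (roughPart q (N a s z.1 q)).Prime ∧ (roughPart q (N b s' z.2 q)).Prime) := by
    intro z
    constructor
    · intro h
      obtain ⟨B, hB⟩ := h.bddAbove
      refine ⟨B + 1, fun q hq hE => ?_⟩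
      have := hB hE
      omega
    · rintro ⟨B, hB⟩
      refine (Set.finite_lt_nat B).subset fun q hq => ?_
      by_contra h
      exact hB q (not_lt.1 h) hq
  have h2 : {z : ℝ × ℝ | z.1 ∈ Set.Ico (0 : ℝ) 1 → z.2 ∈ Set.Ico (0 : ℝ) 1 →
    {q : ℕ | q.Prime ∧ (roughPart q (N a s z.1 q)).Prime ∧
      (roughPart q (N b s' z.2 q)).Prime}.Finite} =
      (Prod.fst ⁻¹' Set.Ico (0 : ℝ) 1)ᶜ ∪ (Prod.snd ⁻¹' Set.Ico (0 : ℝ) 1)ᶜ ∪
      ⋃ B : ℕ, ⋂ q : ℕ, ⋂ _ : B ≤ q, {z : ℝ × ℝ | q.Prime ∧ (roughPart q (N a s z.1 q)).Prime ∧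
        (roughPart q (N b s' z.2 q)).Prime}ᶜ := by
    ext z
    simp only [Set.mem_ofPred_eq, Set.mem_union, Set.mem_compl_iff, Set.mem_preimage, Set.mem_iUnion,
      Set.mem_iInter, hfin z]
    tauto
  rw [h2]
  refine ((measurable_fst measurableSet_Ico).compl.union (measurable_snd measurableSet_Ico).compl).union ?_
  exact MeasurableSet.iUnion fun B => MeasurableSet.iInter fun q => MeasurableSet.iInter fun _ =>
    (hE q).compl

/-- The parametrisation of the solutions. -/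
theorem param (p r : ℕ) : (0 < p ∧ 0 < r ∧ (p : ℤ) ^ 2 - 2 * (r : ℤ) ^ 2 = -1) ↔
    ∃ n : ℕ, Odd n ∧ p = a n ∧ r = b n := by
  constructor
  · rintro ⟨hp, hr, h⟩
    obtain ⟨k, hk⟩ := solutions r p hp hr (by zify; linarith)
    exact ⟨2 * k + 1, odd_two_mul_add_one k, hk⟩
  · rintro ⟨n, hn, rfl, rfl⟩
    refine ⟨a_pos n, b_pos ?_, ?_⟩
    · rintro rfl
      exact absurd hn (by decide)
    · rw [norm_eq n, hn.neg_one_pow]

theorem N_zero (x : ℕ → ℕ) (s : ℝ) (q : ℕ) : N x s 0 q = x q := by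
  unfold N
  simp

theorem prime_iff (x : ℕ → ℕ) (hx : x = a ∨ x = b) (n : ℕ) (h2 : 2 ≤ n) (hodd : Odd n) :
    (x n).Prime ↔ n.Prime ∧ (roughPart n (x n)).Prime := by
  rcases hx with rfl | rfl
  · constructor
    · intro h
      have hp := prime_a h2 hodd h
      have h3 : 2 < n := by
        rcases h2.lt_or_eq with h4 | h4
        · exact h4
        · subst h4; exact absurd hodd (by decide)
      exact ⟨hp, by rw [rough_a hp h3]; exact h⟩
    · rintro ⟨hp, h⟩
      have h3 : 2 < n := by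
        rcases h2.lt_or_eq with h4 | h4
        · exact h4
        · subst h4; exact absurd hodd (by decide)
      rwa [rough_a hp h3] at h
  · constructor
    · intro h
      have hp := prime_b h2 hodd h
      have h3 : 2 < n := by
        rcases h2.lt_or_eq with h4 | h4
        · exact h4
        · subst h4; exact absurd hodd (by decide)
      exact ⟨hp, by rw [rough_b hp h3]; exact h⟩
    · rintro ⟨hp, h⟩
      have h3 : 2 < n := by
        rcases h2.lt_or_eq with h4 | h4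
        · exact h4
        · subst h4; exact absurd hodd (by decide)
      rwa [rough_b hp h3] at h

theorem single : ∃ δ c C : ℝ, 0 < δ ∧ δ < 1 ∧ 0 < c ∧ 0 < C ∧
    ∀ x : ℕ → ℕ, (x = a ∨ x = b) → ∀ s : ℝ, 1 - δ ≤ s → s < 1 →
      (∀ᵐ θ : ℝ, θ ∈ Set.Ico (0 : ℝ) 1 → ∀ᶠ n : ℕ in atTop,
        c * Real.log n ≤ M Set.univ x s θ n ∧ (M Set.univ x s θ n : ℝ) ≤ C * Real.log n) ∧
      (∀ S : Set ℕ, Tendsto (V S) atTop atTop → ∀ᵐ θ : ℝ, θ ∈ Set.Ico (0 : ℝ) 1 →
        ∀ᶠ n : ℕ in atTop, c * V S n ≤ M S x s θ n ∧ (M S x s θ n : ℝ) ≤ C * V S n) ∧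
      (∀ S : Set ℕ, ∀ᵐ θ : ℝ, θ ∈ Set.Ico (0 : ℝ) 1 →
        ({q : ℕ | q.Prime ∧ q ∈ S ∧ (roughPart q (N x s θ q)).Prime}.Infinite ↔
          Tendsto (V S) atTop atTop)) := by
  classical
  have hV : ∀ S, V S = Pool.Agent.TH888.R.VS S := fun S => funext fun n => V_eq S n
  obtain ⟨δ, hδ, hδ1, c1, c2, hc1, hc2, hlaw⟩ := law
  refine ⟨δ, c1 / 2, 2 * c2, hδ, hδ1, by positivity, by positivity, fun x hx s hs hs1 => ?_⟩
  obtain ⟨r1, r2, r3⟩ := Pool.Agent.Q160.TB.conc hc1 hc2 (hlaw x hx s hs hs1)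
  refine ⟨?_, fun S hS => ?_, fun S => ?_⟩
  · simp only [M_eq]
    exact r1
  · rw [hV] at hS ⊢
    simp only [M_eq]
    exact r2 S hS
  · rw [hV]
    exact r3 S

theorem pairs : ∃ δ : ℝ, 0 < δ ∧ δ < 1 ∧
    ∀ s s' : ℝ, 1 - δ ≤ s → s < 1 → 1 - δ ≤ s' → s' < 1 →
      ∀ᵐ z : ℝ × ℝ, z.1 ∈ Set.Ico (0 : ℝ) 1 → z.2 ∈ Set.Ico (0 : ℝ) 1 →
        {q : ℕ | q.Prime ∧ (roughPart q (N a s z.1 q)).Prime ∧
          (roughPart q (N b s' z.2 q)).Prime}.Finite := by
  classical
  have hV : ∀ S, V S = Pool.Agent.TH888.R.VS S := fun S => funext fun n => V_eq S n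
  obtain ⟨δ, hδ, hδ1, c1, c2, hc1, hc2, hlaw⟩ := law
  refine ⟨δ, hδ, hδ1, fun s s' hs hs1 hs' hs1' => ?_⟩
  have hvol : (volume : Measure (ℝ × ℝ)) = (volume : Measure ℝ).prod volume := rfl
  rw [hvol, Measure.ae_prod_iff_ae_ae (meas_fin s s')]
  filter_upwards [hlaw a (Or.inl rfl) s hs hs1 Set.univ] with θ hθ
  by_cases hm : θ ∈ Set.Ico (0 : ℝ) 1
  · have h1 := not_tendsto ((hθ hm).log hc1 hc2 |>.mono fun n hn => hn.2)
    filter_upwards [hlaw b (Or.inr rfl) s' hs' hs1' _] with θ' hθ' _ hm'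
    have h2 := (hθ' hm').fin h1
    exact h2.subset fun q hq => ⟨hq.1, hq.2.1, hq.2.2⟩
  · exact Eventually.of_forall fun θ' h => absurd h hm

end Pool.Agent.Q166.NP
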